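import Mathlib
import Pool.Agent.Helper12.ET.Spec

/-!
# MP_d5a1e1_nt, part SIZE: the number of elements below `x` of a set with few `k`-fold differences
-/

set_option autoImplicit false

namespace Pool.Agent.Helper19.ET.SIZE

open Pool.Agent.Helper12.ET

lemma card_P (F : Finset ℕ) (r : ℕ) : (P F r).card = F.card ^ r := by
  simp [P]

lemma mem_P {F : Finset ℕ} {r : ℕ} {u : Fin r → ℕ} (h : u ∈ P F r) (i : Fin r) : u i ∈ F := by
  unfold P at h
  exact Fintype.mem_piFinset.mp h i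

lemma sg_bounds {F : Finset ℕ} {r x : ℕ} (hF : ∀ a ∈ F, a < x) {u : Fin r → ℕ} (h : u ∈ P F r) :
    0 ≤ sg u ∧ sg u ≤ (r : ℤ) * x := by
  unfold sg
  constructor
  · exact Finset.sum_nonneg fun i _ => by positivity
  · calc ∑ i, (u i : ℤ) ≤ ∑ _i : Fin r, (x : ℤ) :=
          Finset.sum_le_sum fun i _ => by
            have := hF _ (mem_P h i)
            exact_mod_cast this.le
      _ = (r : ℤ) * x := by simp

lemma W_le (F : Finset ℕ) (N r : ℕ) : W F N r ≤ (F.card : ℝ) ^ (2 * r) * N := by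
  unfold W
  calc ∑ u ∈ P F r, ∑ v ∈ P F r, w N (sg u - sg v)
      ≤ ∑ _u ∈ P F r, ∑ _v ∈ P F r, (N : ℝ) :=
        Finset.sum_le_sum fun u _ => Finset.sum_le_sum fun v _ => by
          unfold w
          apply max_le
          · positivity
          · have := abs_nonneg (((sg u - sg v : ℤ)) : ℝ)
            linarith
    _ = (F.card : ℝ) ^ (2 * r) * N := by
        rw [Finset.sum_const, Finset.sum_const, card_P]
        simp only [nsmul_eq_mul, Nat.cast_pow]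
        ring

lemma le_W (F : Finset ℕ) (N r x : ℕ) (hF : ∀ a ∈ F, a < x) :
    (F.card : ℝ) ^ (2 * r) * ((N : ℝ) - r * x) ≤ W F N r := by
  unfold W
  calc (F.card : ℝ) ^ (2 * r) * ((N : ℝ) - r * x)
      = ∑ _u ∈ P F r, ∑ _v ∈ P F r, ((N : ℝ) - r * x) := by
        rw [Finset.sum_const, Finset.sum_const, card_P]
        simp only [nsmul_eq_mul, Nat.cast_pow]
        ring
    _ ≤ ∑ u ∈ P F r, ∑ v ∈ P F r, w N (sg u - sg v) :=
        Finset.sum_le_sum fun u hu => Finset.sum_le_sum fun v hv => by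
          unfold w
          refine le_trans ?_ (le_max_right _ _)
          obtain ⟨h1, h2⟩ := sg_bounds hF hu
          obtain ⟨h3, h4⟩ := sg_bounds hF hv
          have h5 : |sg u - sg v| ≤ (r : ℤ) * x := by
            rw [abs_le]
            constructor <;> linarith
          have h6 : |((sg u - sg v : ℤ) : ℝ)| ≤ (r : ℝ) * x := by
            exact_mod_cast h5
          linarith

/-- SIZE -/
theorem main (hOV : S_OV) : S_SIZE := by
  intro g k hk
  refine ⟨24 * g * k + (4 * (k : ℝ) ^ 2) ^ (2 * k), ?_, ?_⟩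
  · have : (0 : ℝ) < k := by exact_mod_cast hk
    positivity
  intro F x hx hB hF
  obtain ⟨r, rfl⟩ : ∃ r, k = r + 1 := ⟨k - 1, by omega⟩
  set N : ℕ := 2 * (r + 1) * x + 1 with hN
  have h1 := hOV F N g r hB
  have h2 := W_le F N r
  have h3 := le_W F N (r + 1) x hF
  have hNR : (N : ℝ) = 2 * ((r : ℝ) + 1) * x + 1 := by rw [hN]; push_cast; ring
  have hxR : (1 : ℝ) ≤ x := by exact_mod_cast hx
  have hr0 : (0 : ℝ) ≤ r := by positivity
  have hNpos : (0 : ℝ) < N := by rw [hNR]; positivity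
  set c : ℝ := (F.card : ℝ) with hc
  have hc0 : 0 ≤ c := by rw [hc]; positivity
  push_cast at h3 ⊢
  -- lower bound
  have h4 : c ^ (2 * (r + 1)) * (N / 2) ≤ c ^ (2 * (r + 1)) * ((N : ℝ) - ((r : ℝ) + 1) * x) := by
    apply mul_le_mul_of_nonneg_left _ (by positivity)
    rw [hNR]; linarith
  have h5 : c ^ (2 * (r + 1)) * (N / 2) ≤
      2 * g * (N : ℝ) ^ 2 + ((r : ℝ) + 1) ^ 2 * c * (c ^ (2 * r) * N) :=
    le_trans h4 (le_trans h3 (le_trans h1 (by gcongr)))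
  have h6 : c ^ (2 * (r + 1)) ≤ 4 * g * N + 2 * ((r : ℝ) + 1) ^ 2 * (c * c ^ (2 * r)) := by
    have h7 : c ^ (2 * (r + 1)) * (N / 2) ≤
        (4 * g * N + 2 * ((r : ℝ) + 1) ^ 2 * (c * c ^ (2 * r))) * (N / 2) := by
      refine h5.trans (le_of_eq ?_); ring
    exact le_of_mul_le_mul_right h7 (by positivity)
  rcases le_or_gt (4 * ((r : ℝ) + 1) ^ 2) c with hbig | hsmall
  · have h8 : 2 * ((r : ℝ) + 1) ^ 2 * (c * c ^ (2 * r)) ≤ c ^ (2 * (r + 1)) / 2 := by
      have h9 : c ^ (2 * (r + 1)) = c * (c * c ^ (2 * r)) := by ring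
      rw [h9]
      have h10 : 4 * ((r : ℝ) + 1) ^ 2 * (c * c ^ (2 * r)) ≤ c * (c * c ^ (2 * r)) :=
        mul_le_mul_of_nonneg_right hbig (by positivity)
      linarith
    have h11 : c ^ (2 * (r + 1)) ≤ 8 * g * N := by linarith
    have h12 : (8 : ℝ) * g * N ≤ 24 * g * ((r : ℝ) + 1) * x := by
      have h13 : (N : ℝ) ≤ 3 * ((r : ℝ) + 1) * x := by
        rw [hNR]
        have : (1 : ℝ) ≤ ((r : ℝ) + 1) * x := by nlinarith
        linarith
      have hg0 : (0 : ℝ) ≤ g := by positivity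
      calc (8 : ℝ) * g * N ≤ 8 * g * (3 * ((r : ℝ) + 1) * x) := by gcongr
        _ = 24 * g * ((r : ℝ) + 1) * x := by ring
    have h14 : (0 : ℝ) ≤ (4 * ((r : ℝ) + 1) ^ 2) ^ (2 * (r + 1)) * x := by positivity
    calc c ^ (2 * (r + 1)) ≤ 24 * g * ((r : ℝ) + 1) * x := h11.trans h12
      _ ≤ (24 * g * ((r : ℝ) + 1) + (4 * ((r : ℝ) + 1) ^ 2) ^ (2 * (r + 1))) * x := by
          rw [add_mul]; linarith
  · have h15 : c ^ (2 * (r + 1)) ≤ (4 * ((r : ℝ) + 1) ^ 2) ^ (2 * (r + 1)) :=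
      pow_le_pow_left₀ hc0 hsmall.le _
    have h16 : (4 * ((r : ℝ) + 1) ^ 2) ^ (2 * (r + 1)) ≤
        (4 * ((r : ℝ) + 1) ^ 2) ^ (2 * (r + 1)) * x :=
      le_mul_of_one_le_right (by positivity) hxR
    have h17 : (0 : ℝ) ≤ 24 * g * ((r : ℝ) + 1) * x := by positivity
    calc c ^ (2 * (r + 1)) ≤ (4 * ((r : ℝ) + 1) ^ 2) ^ (2 * (r + 1)) * x := h15.trans h16
      _ ≤ (24 * g * ((r : ℝ) + 1) + (4 * ((r : ℝ) + 1) ^ 2) ^ (2 * (r + 1))) * x := by
          rw [add_mul]; linarith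

end Pool.Agent.Helper19.ET.SIZE
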